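import Pool.Agent.H249.ML.Re

/-!
# Hoffman's conjecture and the dimensions, when all relations follow from finitely many

`H` is the algebra of the polynomials in one variable (of weight `2`) over the shuffle algebra on the letters
`0, 1, 2, ...`, the letter `a` of weight `2 a + 3`. A period map is a homomorphism of algebras from `H` to the
real numbers which maps the elements of weight `w` onto the space of the multiple zeta values of weight `w`, for all `w`,
the variable to `π²` and the letter `a` to `ζ(2 a + 3)`. It exists by the theorems of Goncharov and Brown; its kernel is the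
ideal of all relations. It is not known to be homogeneous.

The theorem: either the ideal of the relations is not finitely generated, or there are integers `a`, `b`, `c` such that
`D_(n+1) - D_n = a d_(n+1) + b d_(n+2) + c d_(n+3)` for all large `n`, where `D_n` is the dimension of the space of the
multiple zeta values of weight at most `n` and `d` are the numbers of Zagier. In the second case `D_n` is at least a positive
proportion of the conjectured dimension; Hoffman's conjecture holds if and only if `a = 1`, `b = c = 0`; and `ζ(2 k + 1)` is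
transcendental over the field generated by the multiple zeta values of smaller weight, for all large `k`.
-/

set_option autoImplicit false

open Submodule Module Polynomial

namespace Pool.Agent.Results.MP_c2d7b4_nt.FinitelyManyRelations

open Pool.Agent.H447R2.MZ (Zs)
open Pool.Agent.Q187.ZD.Hof (Brown IsBasis)
open Pool.Agent.H249.ML.Two (H)
open Pool.Agent.H249.ML.Re (IsPeriodMap)

/-- The numbers of Zagier. -/
def d : ℕ → ℕ
  | 0 => 1
  | 1 => 0
  | 2 => 1
  | n + 3 => d (n + 1) + d n

/-- `d 0 + ... + d n` -/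
def s (n : ℕ) : ℕ := ∑ j ∈ Finset.range (n + 1), d j

/-- The dimension of the space spanned by the multiple zeta values of weight at most `n`. -/
noncomputable def D (n : ℕ) : ℕ := finrank ℚ (⨆ k : {k : ℕ // k ≤ n}, Zs k.1 : Submodule ℚ ℝ)

/-- **Theorem.** -/
theorem result (per : H →ₐ[ℚ] ℝ) (hper : IsPeriodMap per) :
    ¬ (RingHom.ker per).FG ∨ ∃ a b c : ℤ,
      (∃ n₀, ∀ n ≥ n₀, (D (n + 1) : ℤ) - D n = a * d (n + 1) + b * d (n + 2) + c * d (n + 3)) ∧
      (∃ ε : ℝ, 0 < ε ∧ ∀ n, ε * s n ≤ D n) ∧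
      (Brown → (IsBasis ↔ a = 1 ∧ b = 0 ∧ c = 0)) ∧
      ∃ k₀, ∀ k ≥ k₀, Transcendental (IntermediateField.adjoin ℚ {z : ℝ | ∃ j < 2 * k + 1, z ∈ Zs j})
        (∑' n : ℕ, 1 / ((n : ℝ) + 1) ^ (2 * k + 1)) := by
  by_cases hfg : (RingHom.ker per).FG
  swap
  · exact Or.inl hfg
  right
  have hd : Pool.Agent.Q187.ZD.IsZagier d := ⟨rfl, rfl, rfl, fun n => by rw [d]⟩
  obtain ⟨a, b, c, h1, ⟨M, h2⟩, h3⟩ := Pool.Agent.H249.ML.D_final (Pool.Agent.H249.ML.Re.isPer hper) hd
    (Pool.Agent.H249.ML.Re.trans_vari hper) hfg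
  refine ⟨a, b, c, h1, ⟨(2 ^ M : ℝ)⁻¹, by positivity, fun n => ?_⟩, fun hB => ?_, ?_⟩
  · rw [inv_mul_le_iff₀ (by positivity)]
    exact_mod_cast h2 n
  · rw [Pool.Agent.H249.ML.Re.basis_iff hper hB hd, ← h3]
    refine forall_congr' fun n => ?_
    rw [← Pool.Agent.H249.ML.Re.tot_eq]
    rfl
  · obtain ⟨N, hN⟩ := (Pool.Agent.H249.ML.fg_iff' (Pool.Agent.H249.ML.gr_deg Pool.Agent.H249.ML.WZ)
      (Pool.Agent.H249.ML.nondeg_Fl Pool.Agent.H249.ML.WZ) (Pool.Agent.H249.ML.gr_Fl Pool.Agent.H249.ML.WZ)
      Pool.Agent.H249.ML.inv_fg).mp hfg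
    refine ⟨N + 1, fun k hk => ?_⟩
    obtain ⟨a, rfl⟩ : ∃ a, k = a + 1 := ⟨k - 1, by omega⟩
    have h4 := Pool.Agent.H249.ML.Re.trans_letter (Pool.Agent.H249.ML.Re.isPer hper) (a := a)
      (fun x hx => hN (2 * a + 3) (by omega) (Pool.Agent.H249.MZ.cut a)
        ⟨Pool.Agent.H249.MZ.cut_mem_Fl a, Pool.Agent.H249.ML.cut_deg (W := Pool.Agent.H249.ML.WZ) a⟩ x hx)
    have h5 := hper.2.2 a
    change Transcendental (IntermediateField.adjoin ℚ {z : ℝ | ∃ j < 2 * a + 3, z ∈ Zs j})
      (per (Pool.Agent.H249.ML.Re.letter a)) at h4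
    rwa [h5] at h4

end Pool.Agent.Results.MP_c2d7b4_nt.FinitelyManyRelations
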