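import Pool.Agent.Q187.ZD.HofMain

/-!
# Hoffman's conjecture: it suffices to treat the words with a fixed factor

`IsBasis` says that the Hoffman elements `ζ(w)`, `w` a word in the letters `2, 3`, form a basis of
the space of all multiple zeta values. It is equivalent to the linear independence of the `ζ(w)`
for the words `w` which contain a given word `v` as a factor, and it follows from the linear
independence of the `ζ(w)` with `w` in any set of words of upper density one.
-/

set_option autoImplicit false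

namespace Pool.Agent.Results.MP_c2d7b4_nt.WordsWithAFactor

open Pool.Agent.H447R2.MZ (val Zs)
open Pool.Agent.Q187.ZD
open Pool.Agent.Q187.ZD.Hof

theorem result {H : Type} [CommRing H] [Algebra ℚ H] (gr : ℕ → Submodule ℚ H) (per : H →ₐ[ℚ] ℝ)
    (hm : IsMotivic (fun n => (words n).card) Zs gr per) (hB : Brown) :
    (∀ v, Word v → (IsBasis ↔ LinearIndepOn ℚ val {w | Word w ∧ v <:+: w})) ∧
    (∀ F : Set (List ℕ), LinearIndepOn ℚ val F →
      (∀ p, ∃ N, p ≤ N ∧
        ({w | Word w ∧ w.sum ≤ N ∧ w ∉ F}).ncard < (upTo (N - p)).card) → IsBasis) ∧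
    (∀ F : Set (List ℕ), LinearIndepOn ℚ val F →
      (∀ ε : ℝ, 0 < ε → ∀ N₀, ∃ N ≥ N₀,
        (({w | Word w ∧ w.sum ≤ N ∧ w ∉ F}).ncard : ℝ) ≤ ε * (upTo N).card) → IsBasis) :=
  ⟨fun v hv => inhom_iff hm hB v hv, fun F hi hF => inhom_family hm hB F hi hF,
    fun F hi hF => inhom_density hm hB F hi hF⟩

end Pool.Agent.Results.MP_c2d7b4_nt.WordsWithAFactor
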